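import Pool.Agent.Run7.h523.KF.Iface3
import Pool.Agent.Run7.h523.KF.EUC
import Pool.Agent.Results.MP_6d896a_gt.OneSymmetric

/-!
Piece OS of helper523's project KF: transport of the theorem on 1-symmetric measures to `P → ℝ`.
-/

set_option autoImplicit false
set_option linter.all false

namespace Run7.h224.KF

open MeasureTheory Set Filter Topology
open scoped ENNReal
open Run7.h523.KF

section tr

variable {P : Type} [Fintype P] [DecidableEq P] {n : ℕ} (e : P ≃ Fin n)

/-- the coordinates with the index set `P` -/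
def tr (x : EuclideanSpace ℝ (Fin n)) : P → ℝ := fun v => x (e v)

theorem tr_eq : tr e = (MeasurableEquiv.piCongrLeft (fun _ : P => ℝ) e.symm) ∘
    (fun x : EuclideanSpace ℝ (Fin n) => WithLp.ofLp x) := by
  funext x v
  have := Equiv.piCongrLeft_apply_apply (fun _ : P => ℝ) e.symm (WithLp.ofLp x) (e v)
  rw [Equiv.symm_apply_apply] at this
  exact this.symm

theorem tr_mp : MeasurePreserving (tr e) volume volume := by
  rw [tr_eq]
  exact (volume_measurePreserving_piCongrLeft (fun _ : P => ℝ) e.symm).comp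
    (PiLp.volume_preserving_ofLp (Fin n))

theorem tr_emb : MeasurableEmbedding (tr e) := by
  rw [tr_eq]
  exact (MeasurableEquiv.measurableEmbedding _).comp
    (MeasurableEquiv.toLp 2 (Fin n → ℝ)).symm.measurableEmbedding

/-- `tr` as a linear map -/
noncomputable def trL : EuclideanSpace ℝ (Fin n) →L[ℝ] (P → ℝ) :=
  ContinuousLinearMap.pi fun v => EuclideanSpace.proj (e v)

theorem trL_apply (x : EuclideanSpace ℝ (Fin n)) : trL e x = tr e x := rfl

theorem tr_single (i : Fin n) : tr e (EuclideanSpace.single i 1) = Pi.single (e.symm i) (1 : ℝ) := by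
  funext v
  unfold tr
  by_cases h : e v = i
  · have h' : v = e.symm i := by rw [← h, Equiv.symm_apply_apply]
    rw [h, h']
    simp
  · have h' : v ≠ e.symm i := by rintro rfl; exact h (Equiv.apply_symm_apply _ _)
    rw [Pi.single_eq_of_ne h']
    simp [h]

end tr

theorem t_OS : S_OS := by
  obtain ⟨C₀, hC₀, H⟩ := Pool.Agent.Results.MP_6d896a_gt.OneSymmetric.result
  refine ⟨C₀, hC₀, ?_⟩
  intro P _ _ _ ρ s C f hρ hs hM hf
  set n := Fintype.card P with hn
  have hn1 : 1 ≤ n := Fintype.card_pos
  let e : P ≃ Fin n := Fintype.equivFin P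
  have hmp := tr_mp e
  have hem := tr_emb e
  have hlin : ∀ (x y : EuclideanSpace ℝ (Fin n)) (a b : ℝ),
      tr e (a • x + b • y) = a • tr e x + b • tr e y := by
    intro x y a b
    rw [← trL_apply, map_add, map_smul, map_smul]
    rfl
  have hsym : Pool.Agent.Results.MP_6d896a_gt.OneSymmetric.SymDensity (fun x => ρ (tr e x)) :=
    { nonneg := fun x => hρ.nonneg _
      meas := hρ.meas.comp hmp.measurable
      logc := fun x y t h0 h1 => by
        have := hρ.logc (tr e x) (tr e y) t h0 h1
        rwa [← hlin] at this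
      inv := fun σ x y h => by
        apply hρ.inv ((e.trans σ).trans e.symm)
        intro v
        unfold tr
        rw [h (e v)]
        simp }
  set g : EuclideanSpace ℝ (Fin n) → ℝ≥0∞ := fun x => ENNReal.ofReal (ρ (tr e x)) with hg
  have hgm : Measurable g := hsym.meas.ennreal_ofReal
  set μ : Measure (EuclideanSpace ℝ (Fin n)) := volume.withDensity g with hμ
  have hint : ∀ G : (P → ℝ) → ℝ, ∫ x, G (tr e x) ∂μ = ∫ y, G y * ρ y := by
    intro G
    rw [hμ, integral_withDensity_eq_integral_toReal_smul hgm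
      (Eventually.of_forall fun x => ENNReal.ofReal_lt_top)]
    have h1 : ∀ x, (g x).toReal • G (tr e x) = (fun y => G y * ρ y) (tr e x) := by
      intro x
      simp only [hg, smul_eq_mul]
      rw [ENNReal.toReal_ofReal (hρ.nonneg _), mul_comm]
    simp only [h1]
    exact hmp.integral_comp hem (fun y => G y * ρ y)
  have hlint : ∀ G : (P → ℝ) → ℝ, Measurable G →
      ∫⁻ x, ENNReal.ofReal (G (tr e x)) ∂μ = ∫⁻ y, ENNReal.ofReal (G y * ρ y) := by
    intro G hG
    have hGm : Measurable fun x => ENNReal.ofReal (G (tr e x)) :=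
      (hG.comp hmp.measurable).ennreal_ofReal
    rw [hμ, lintegral_withDensity_eq_lintegral_mul _ hgm hGm]
    have h1 : ∀ x, (g * fun x => ENNReal.ofReal (G (tr e x))) x =
        (fun y => ENNReal.ofReal (G y * ρ y)) (tr e x) := by
      intro x
      simp only [hg, Pi.mul_apply]
      rw [ENNReal.ofReal_mul' (hρ.nonneg _), mul_comm]
    simp only [h1]
    exact hmp.lintegral_comp_emb hem (fun y => ENNReal.ofReal (G y * ρ y))
  have hprob : IsProbabilityMeasure μ := by
    constructor
    have h1 := hlint (fun _ => 1) measurable_const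
    simp only [ENNReal.ofReal_one, one_mul, lintegral_const] at h1
    rw [hρ.mass] at h1
    exact h1
  have hmom : ∀ i, ∫⁻ x, ENNReal.ofReal (x i ^ 2) ∂μ ≤ ENNReal.ofReal s := by
    intro i
    have h1 := hlint (fun y => y (e.symm i) ^ 2) ((measurable_pi_apply _).pow_const 2)
    have h2 : ∀ x : EuclideanSpace ℝ (Fin n), tr e x (e.symm i) = x i := by
      intro x
      unfold tr
      rw [Equiv.apply_symm_apply]
    simp only [h2] at h1
    rw [h1]
    exact hM _
  have hfc : ContDiff ℝ 1 (fun x => f (tr e x)) := hf.cd.comp (trL e).contDiff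
  have hfL : MemLp (fun x => f (tr e x)) 2 μ :=
    MemLp.of_bound (hfc.continuous.aestronglyMeasurable) C
      (Eventually.of_forall fun x => by rw [Real.norm_eq_abs]; exact hf.bd _)
  have hmain := H n hn1 (fun x => ρ (tr e x)) hsym μ rfl hprob s hs hmom _ hfc hfL
  have hvar : ProbabilityTheory.variance (fun x => f (tr e x)) μ =
      (∫ y, f y ^ 2 * ρ y) - (∫ y, f y * ρ y) ^ 2 := by
    rw [ProbabilityTheory.variance_eq_sub hfL]
    rw [← hint f, ← hint (fun y => f y ^ 2)]
    rfl
  have hgrad : ∀ x, ‖fderiv ℝ (fun x => f (tr e x)) x‖ ^ 2 = gr f (tr e x) := by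
    intro x
    rw [normsq]
    have h1 : HasFDerivAt (fun x => f (tr e x)) ((fderiv ℝ f (tr e x)).comp (trL e)) x := by
      have h2 : HasFDerivAt f (fderiv ℝ f (tr e x)) (trL e x) :=
        (hf.cd.differentiable one_ne_zero _).hasFDerivAt
      exact h2.comp x (trL e).hasFDerivAt
    rw [h1.fderiv]
    unfold gr
    rw [← Equiv.sum_comp e.symm]
    refine Finset.sum_congr rfl fun i _ => ?_
    rw [ContinuousLinearMap.comp_apply, trL_apply, tr_single]
  simp only [hgrad] at hmain
  have hgrm : Measurable (gr f) := by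
    unfold gr
    refine Finset.measurable_sum _ fun v _ => Measurable.pow_const ?_ 2
    exact ((hf.cd.continuous_fderiv one_ne_zero).clm_apply continuous_const).measurable
  have hgr0 : ∀ y, 0 ≤ gr f y := fun y => Finset.sum_nonneg fun v _ => sq_nonneg _
  rw [hlint (gr f) hgrm, hvar] at hmain
  have hC0 : 0 ≤ C := (abs_nonneg _).trans (hf.bd 0)
  have hρint : Integrable ρ := by
    refine ⟨hρ.meas.aestronglyMeasurable, ?_⟩
    rw [hasFiniteIntegral_iff_ofReal (Eventually.of_forall hρ.nonneg), hρ.mass]
    exact ENNReal.one_lt_top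
  have hgi : Integrable fun y => gr f y * ρ y := by
    refine Integrable.mono' (hρint.const_mul (n * C ^ 2)) (hgrm.mul hρ.meas).aestronglyMeasurable
      (Eventually.of_forall fun y => ?_)
    rw [Real.norm_eq_abs, abs_of_nonneg (mul_nonneg (hgr0 y) (hρ.nonneg y))]
    apply mul_le_mul_of_nonneg_right _ (hρ.nonneg y)
    unfold gr
    calc ∑ v, (fderiv ℝ f y (Pi.single v 1)) ^ 2 ≤ ∑ v : P, C ^ 2 :=
          Finset.sum_le_sum fun v _ => by
            rw [← sq_abs]
            exact pow_le_pow_left₀ (abs_nonneg _) (hf.db y v) 2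
      _ = n * C ^ 2 := by rw [Finset.sum_const, nsmul_eq_mul, Finset.card_univ]
  rw [← ofReal_integral_eq_lintegral_ofReal hgi
    (Eventually.of_forall fun y => mul_nonneg (hgr0 y) (hρ.nonneg y)),
    ← ENNReal.ofReal_mul (by positivity)] at hmain
  have hB : 0 ≤ ∫ y, gr f y * ρ y :=
    integral_nonneg fun y => mul_nonneg (hgr0 y) (hρ.nonneg y)
  exact (ENNReal.ofReal_le_ofReal_iff (by positivity)).1 hmain

end Run7.h224.KF
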