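import Pool.Agent.Run7.h523.KF.Iface3
import Pool.Agent.Run7.h961.KF.SYMA

/-!
Piece SYR of helper523's project KF: second moment of the sum over a cone, 1-symmetric densities.
-/

set_option autoImplicit false
set_option linter.all false

namespace Run7.h224.KF

open MeasureTheory Set Filter Topology
open scoped ENNReal
open Run7.h523.KF
open Run7.h961.KF (perm_inv meas_KC key)

variable {P : Type} [Fintype P] [DecidableEq P]

/-- change of signs -/
def fl (ε : P → ℝ) (y : P → ℝ) : P → ℝ := fun v => ε v * y v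

theorem fl_mp (ε : P → ℝ) (hε : ∀ v, ε v = 1 ∨ ε v = -1) :
    MeasurePreserving (fl ε) (volume : Measure (P → ℝ)) volume := by
  have h : ∀ v : P, MeasurePreserving (fun t : ℝ => ε v * t) volume volume := by
    intro v
    rcases hε v with h | h
    · rw [h]
      simp only [one_mul]
      exact MeasurePreserving.id _
    · rw [h]
      simp only [neg_one_mul]
      exact Measure.measurePreserving_neg _
  exact measurePreserving_pi (fun _ => volume) (fun _ => volume) h

theorem fl_inv (ε : P → ℝ) (hε : ∀ v, ε v = 1 ∨ ε v = -1) : Function.Involutive (fl ε) := by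
  intro y
  funext v
  unfold fl
  rcases hε v with h | h <;> rw [h] <;> ring

theorem fl_emb (ε : P → ℝ) (hε : ∀ v, ε v = 1 ∨ ε v = -1) : MeasurableEmbedding (fl ε) :=
  (MeasurableEquiv.ofInvolutive (fl ε) (fl_inv ε hε) (fl_mp ε hε).measurable).measurableEmbedding

variable {ρ : (P → ℝ) → ℝ}

theorem rho_fl (hρ : Sy1 ρ) (ε : P → ℝ) (hε : ∀ v, ε v = 1 ∨ ε v = -1) (y : P → ℝ) :
    ρ (fl ε y) = ρ y := by
  apply hρ.inv 1
  intro i
  unfold fl
  rcases hε i with h | h <;> rw [h] <;> simp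

theorem rho_perm (hρ : Sy1 ρ) (σ : Equiv.Perm P) (y : P → ℝ) : ρ (fun v => y (σ v)) = ρ y :=
  hρ.inv σ _ _ fun _ => rfl

theorem rm (hρ : Sy1 ρ) : Measurable fun x => ENNReal.ofReal (ρ x) := hρ.meas.ennreal_ofReal

theorem symr (R : P × Bool → P × Bool → Prop) (hR : TypeA R) (hρ : Sy1 ρ)
    (Φ : (P → ℝ) → ℝ≥0∞) (hΦ : Measurable Φ)
    (hinv : ∀ (σ : Equiv.Perm P) (x : P → ℝ), Φ (fun v => x (σ v)) = Φ x) :
    ∫⁻ x in KC R, Φ x * ENNReal.ofReal (ρ x) =
      (∫⁻ x in KC R, ENNReal.ofReal (ρ x)) * ∫⁻ x, Φ x * ENNReal.ofReal (ρ x) := by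
  have hw := rm hρ
  have hwi : ∀ (σ : Equiv.Perm P) (x : P → ℝ),
      ENNReal.ofReal (ρ (fun v => x (σ v))) = ENNReal.ofReal (ρ x) := by
    intro σ x
    rw [rho_perm hρ]
  let x0 : P → ℝ := fun v => ((Fintype.equivFin P v : ℕ) : ℝ)
  have hx0 : Function.Injective x0 := by
    intro v w h
    have h1 : ((Fintype.equivFin P v : ℕ) : ℝ) = ((Fintype.equivFin P w : ℕ) : ℝ) := h
    exact (Fintype.equivFin P).injective (Fin.ext (Nat.cast_injective h1))
  have k1 := key R hR (fun x => Φ x * ENNReal.ofReal (ρ x)) (hΦ.mul hw)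
    (fun σ x => by simp only [hinv σ x, hwi σ x]) x0 hx0
  have k2 := key R hR (fun x => ENNReal.ofReal (ρ x)) hw (fun σ x => hwi σ x) x0 hx0
  rw [hρ.mass, mul_one] at k2
  have hn0 : (Fintype.card (Equiv.Perm P) : ℝ≥0∞) ≠ 0 := by
    exact_mod_cast Fintype.card_ne_zero
  have hnt : (Fintype.card (Equiv.Perm P) : ℝ≥0∞) ≠ ⊤ := ENNReal.natCast_ne_top _
  rw [← ENNReal.mul_right_inj hn0 hnt, k1, ← k2, mul_assoc]

theorem int_sq {s : ℝ} (hρ : Sy1 ρ) (hM : Mom2 ρ s) (v : P) : Integrable fun y : P → ℝ => y v ^ 2 * ρ y := by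
  refine ⟨(((measurable_pi_apply v).pow_const 2).mul hρ.meas).aestronglyMeasurable, ?_⟩
  rw [hasFiniteIntegral_iff_ofReal (Eventually.of_forall fun y => mul_nonneg (sq_nonneg _) (hρ.nonneg y))]
  exact (hM v).trans_lt ENNReal.ofReal_lt_top

theorem int_mul {s : ℝ} (hρ : Sy1 ρ) (hM : Mom2 ρ s) (v w : P) :
    Integrable fun y : P → ℝ => y v * y w * ρ y := by
  refine Integrable.mono' ((int_sq hρ hM v).add (int_sq hρ hM w))
    (((measurable_pi_apply v).mul (measurable_pi_apply w)).mul hρ.meas).aestronglyMeasurable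
    (Eventually.of_forall fun y => ?_)
  have h1 := hρ.nonneg y
  rw [Real.norm_eq_abs, abs_mul, abs_of_nonneg h1]
  change |y v * y w| * ρ y ≤ y v ^ 2 * ρ y + y w ^ 2 * ρ y
  rw [← add_mul]
  apply mul_le_mul_of_nonneg_right _ h1
  rw [abs_mul]
  nlinarith [sq_nonneg (|y v| - |y w|), sq_abs (y v), sq_abs (y w), sq_nonneg (y v), sq_nonneg (y w)]

theorem mixed {s : ℝ} (hρ : Sy1 ρ) (v w : P) (hvw : v ≠ w) : ∫ y : P → ℝ, y v * y w * ρ y = 0 := by
  set ε : P → ℝ := fun u => if u = v then -1 else 1 with hεd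
  have hε : ∀ u, ε u = 1 ∨ ε u = -1 := by
    intro u
    simp only [hεd]
    split_ifs
    · exact Or.inr rfl
    · exact Or.inl rfl
  have h1 := (fl_mp ε hε).integral_comp (fl_emb ε hε) (fun y : P → ℝ => y v * y w * ρ y)
  have h2 : ∀ y : P → ℝ, (fl ε y) v * (fl ε y) w * ρ (fl ε y) = -(y v * y w * ρ y) := by
    intro y
    rw [rho_fl hρ ε hε]
    simp only [fl, hεd, if_true, if_neg hvw.symm]
    ring
  simp only [h2] at h1
  rw [integral_neg] at h1
  linarith

theorem same {s : ℝ} (hρ : Sy1 ρ) (hM : Mom2 ρ s) (v w : P) :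
    ∫ y : P → ℝ, y v ^ 2 * ρ y = ∫ y : P → ℝ, y w ^ 2 * ρ y := by
  have h0 : ∀ u : P, ∫ y : P → ℝ, y u ^ 2 * ρ y = (∫⁻ y : P → ℝ, ENNReal.ofReal (y u ^ 2 * ρ y)).toReal := by
    intro u
    exact integral_eq_lintegral_of_nonneg_ae
      (Eventually.of_forall fun y => mul_nonneg (sq_nonneg _) (hρ.nonneg y))
      (int_sq hρ hM u).aestronglyMeasurable
  rw [h0, h0]
  congr 1
  rw [← perm_inv (Equiv.swap v w) (fun y : P → ℝ => ENNReal.ofReal (y v ^ 2 * ρ y))]
  refine lintegral_congr fun y => ?_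
  rw [rho_perm hρ]
  change ENNReal.ofReal (y (Equiv.swap v w v) ^ 2 * ρ y) = _
  rw [Equiv.swap_apply_left]

theorem t_SYR : S_SYR := by
  intro P _ _ R ρ s hR hρ hM
  have hsm : Measurable fun y : P → ℝ => ∑ v, y v :=
    Finset.measurable_sum _ fun v _ => measurable_pi_apply v
  have hsi : ∀ (σ : Equiv.Perm P) (x : P → ℝ), ∑ v, x (σ v) = ∑ v, x v := fun σ x =>
    Equiv.sum_comp σ x
  constructor
  · by_cases hint : Integrable (fun y : P → ℝ => (∑ v, y v) * ρ y) (volume.restrict (KC R))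
    · rw [integral_eq_lintegral_pos_part_sub_lintegral_neg_part hint]
      have e1 : ∀ y : P → ℝ, ENNReal.ofReal ((∑ v, y v) * ρ y) =
          ENNReal.ofReal (∑ v, y v) * ENNReal.ofReal (ρ y) := fun y =>
        ENNReal.ofReal_mul' (hρ.nonneg y)
      have e2 : ∀ y : P → ℝ, ENNReal.ofReal (-((∑ v, y v) * ρ y)) =
          ENNReal.ofReal (-∑ v, y v) * ENNReal.ofReal (ρ y) := fun y => by
        rw [← neg_mul]
        exact ENNReal.ofReal_mul' (hρ.nonneg y)
      simp only [e1, e2]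
      rw [symr R hR hρ (fun y => ENNReal.ofReal (∑ v, y v)) hsm.ennreal_ofReal
          (fun σ x => by simp only [hsi]),
        symr R hR hρ (fun y => ENNReal.ofReal (-∑ v, y v)) hsm.neg.ennreal_ofReal
          (fun σ x => by simp only [hsi])]
      have e3 : ∫⁻ x : P → ℝ, ENNReal.ofReal (∑ v, x v) * ENNReal.ofReal (ρ x) =
          ∫⁻ x : P → ℝ, ENNReal.ofReal (-∑ v, x v) * ENNReal.ofReal (ρ x) := by
        have hε : ∀ v : P, (fun _ : P => (-1 : ℝ)) v = 1 ∨ (fun _ : P => (-1 : ℝ)) v = -1 :=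
          fun _ => Or.inr rfl
        rw [← (fl_mp (fun _ : P => (-1 : ℝ)) hε).lintegral_comp_emb (fl_emb _ hε)
          (fun x : P → ℝ => ENNReal.ofReal (∑ v, x v) * ENNReal.ofReal (ρ x))]
        refine lintegral_congr fun y => ?_
        rw [rho_fl hρ _ hε]
        simp only [fl, neg_one_mul, Finset.sum_neg_distrib]
      rw [e3, sub_self]
    · exact integral_undef hint
  · intro i
    have h1 : ∫ y in KC R, (∑ v, y v) ^ 2 * ρ y =
        (∫⁻ y in KC R, ENNReal.ofReal ((∑ v, y v) ^ 2) * ENNReal.ofReal (ρ y)).toReal := by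
      rw [integral_eq_lintegral_of_nonneg_ae
        (Eventually.of_forall fun y => mul_nonneg (sq_nonneg _) (hρ.nonneg y))
        ((hsm.pow_const 2).mul hρ.meas).aestronglyMeasurable]
      congr 1
      refine lintegral_congr fun y => ?_
      exact ENNReal.ofReal_mul' (hρ.nonneg y)
    have h2 : ∫ y in KC R, ρ y = (∫⁻ y in KC R, ENNReal.ofReal (ρ y)).toReal :=
      integral_eq_lintegral_of_nonneg_ae (Eventually.of_forall fun y => hρ.nonneg y)
        hρ.meas.aestronglyMeasurable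
    have h3 : ∫ y : P → ℝ, (∑ v, y v) ^ 2 * ρ y =
        (∫⁻ y : P → ℝ, ENNReal.ofReal ((∑ v, y v) ^ 2) * ENNReal.ofReal (ρ y)).toReal := by
      rw [integral_eq_lintegral_of_nonneg_ae
        (Eventually.of_forall fun y => mul_nonneg (sq_nonneg _) (hρ.nonneg y))
        ((hsm.pow_const 2).mul hρ.meas).aestronglyMeasurable]
      congr 1
      refine lintegral_congr fun y => ?_
      exact ENNReal.ofReal_mul' (hρ.nonneg y)
    rw [h1, symr R hR hρ (fun y => ENNReal.ofReal ((∑ v, y v) ^ 2)) (hsm.pow_const 2).ennreal_ofReal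
      (fun σ x => by simp only [hsi]), ENNReal.toReal_mul, ← h2, ← h3]
    congr 1
    have h4 : ∀ y : P → ℝ, (∑ v, y v) ^ 2 * ρ y = ∑ v, ∑ w, y v * y w * ρ y := by
      intro y
      rw [sq, Finset.sum_mul_sum, Finset.sum_mul]
      refine Finset.sum_congr rfl fun v _ => ?_
      rw [Finset.sum_mul]
    simp only [h4]
    rw [integral_finsetSum _ fun v _ => integrable_finsetSum _ fun w _ => int_mul hρ hM v w]
    have h5 : ∀ v : P, ∫ y : P → ℝ, ∑ w, y v * y w * ρ y = ∫ y : P → ℝ, y i ^ 2 * ρ y := by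
      intro v
      rw [integral_finsetSum _ fun w _ => int_mul hρ hM v w,
        Finset.sum_eq_single_of_mem v (Finset.mem_univ _) fun w _ hw => mixed (s := s) hρ v w hw.symm,
        ← same hρ hM v i]
      refine integral_congr_ae (Eventually.of_forall fun y => ?_)
      simp only
      ring
    rw [Finset.sum_congr rfl fun v _ => h5 v, Finset.sum_const, nsmul_eq_mul, Finset.card_univ]

end Run7.h224.KF
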